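import Pool.Agent.Q201.SG.Game

/-!
# `A_k`-automata with at most `k + 2` states

Improvement of the argument of `Pool.Agent.Q201.SG.Game` (for `k ≥ 2 n`): the pairs which are merged
are chosen so that the pairs which stay mergeable for a long time remain unmerged as long as possible.
-/

set_option autoImplicit false

namespace Q222.AK

open Pool.Agent.Q201.SG

variable {Q A : Type} {δ : Q → A → Q}

/-- the pairs with the same `θ`-class after `w`, inside `F` -/
def Ker (δ : Q → A → Q) (θ F : Setoid Q) (w : List A) : Setoid Q := F ⊓ θ.comap fun q => act δ q w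

theorem ker_le (θ F : Setoid Q) (w : List A) : Ker δ θ F w ≤ F := inf_le_left

theorem ker_snoc {θ F : Setoid Q} (hθ : Cong δ θ) (w : List A) (a : A) :
    Ker δ θ F w ≤ Ker δ θ F (w ++ [a]) := by
  intro p q hpq
  refine ⟨hpq.1, ?_⟩
  show θ (act δ p (w ++ [a])) (act δ q (w ++ [a]))
  rw [act_snoc, act_snoc]
  exact hθ a _ _ hpq.2

theorem ker_nil {θ F : Setoid Q} (h : θ ≤ F) : Ker δ θ F [] = θ := inf_eq_right.2 h

/-- a relation contains `E j` as soon as it contains the generating pairs -/
theorem E_le {θ ρ : Setoid Q} {j : ℕ} (h : ∀ x y, C δ θ j x y → ρ x y) : E δ θ j ≤ ρ := by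
  intro x y hxy
  induction hxy with
  | rel x y h' => exact h x y h'
  | refl x => exact Setoid.refl' _ _
  | symm x y _ ih => exact Setoid.symm' _ ih
  | trans x y z _ _ ih1 ih2 => exact Setoid.trans' _ ih1 ih2

/-- the level `J`: a congruence `E J` above which the numbers of classes increase strictly -/
theorem level [Finite Q] [Nonempty Q] {k m : ℕ} {θ : Setoid Q} (hm : m ≤ k + 2)
    (h0 : N (E δ θ k) < m) :
    ∃ J, J ≤ k ∧ Cong δ (E δ θ J) ∧ ∀ T, J ≤ T → T ≤ k → N (E δ θ T) + (k - T) + 1 ≤ m := by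
  have key : ∀ i, i ≤ k → (∃ J, J ≤ k ∧ Cong δ (E δ θ J) ∧
      ∀ T, J ≤ T → T ≤ k → N (E δ θ T) + (k - T) + 1 ≤ m) ∨
      ∀ T, k - i ≤ T → T ≤ k → N (E δ θ T) + (k - T) + 1 ≤ m := by
    intro i
    induction i with
    | zero =>
      intro _
      right
      intro T h1 h2
      have : T = k := by omega
      subst this
      omega
    | succ i ih =>
      intro hi
      rcases ih (by omega) with h | h
      · exact Or.inl h
      · by_cases heq : N (E δ θ (k - i)) ≤ N (E δ θ (k - (i + 1)))
        · left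
          have hEq : E δ θ (k - i) = E δ θ (k - (i + 1)) :=
            eq_of_N_le (E_mono (by omega)) heq
          refine ⟨k - i, by omega, ?_, h⟩
          intro a x y hxy
          have e : k - i = (k - (i + 1)) + 1 := by omega
          rw [hEq]
          rw [e] at hxy
          exact E_step hxy a
        · right
          intro T h1 h2
          rcases Nat.lt_or_ge T (k - i) with h3 | h3
          · have e : T = k - (i + 1) := by omega
            subst e
            have := h (k - i) le_rfl (by omega)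
            omega
          · exact h T h3 h2
  rcases key k le_rfl with h | h
  · exact h
  · refine ⟨0, Nat.zero_le _, ?_, fun T _ h2 => h T (by omega) h2⟩
    have h1 := h 0 (by omega) (Nat.zero_le _)
    have h2 : N (E δ θ 0) = 1 := by
      have := N_pos (E δ θ 0)
      omega
    unfold N at h2
    rw [Nat.card_eq_one_iff_unique] at h2
    obtain ⟨⟨h3⟩, -⟩ := h2
    intro a x y _
    exact Quotient.exact (h3 (Quotient.mk (E δ θ 0) (δ x a)) (Quotient.mk _ (δ y a)))

/-- collapsing the classes of `E J` -/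
theorem collapse [Finite Q] [Nonempty Q] {k m J : ℕ} {θ : Setoid Q} (hθ : Cong δ θ)
    (hm : m ≤ k + 2) (hJ : J ≤ k)
    (hN : ∀ T, J ≤ T → T ≤ k → N (E δ θ T) + (k - T) + 1 ≤ m) (r : ℕ) :
    ∀ w : List A, N (Ker δ θ (E δ θ J) w) = r → w.length + r ≤ m →
      (∀ T, J ≤ T → T ≤ k → N (Ker δ θ (E δ θ J) w ⊔ E δ θ T) ≤ N (E δ θ J) ∨
        N (Ker δ θ (E δ θ J) w ⊔ E δ θ T) + w.length ≤ N (E δ θ T)) →
      ∃ w₂ : List A, w₂.length + N (E δ θ J) ≤ m ∧
        ∀ x y, E δ θ J x y → θ (act δ x w₂) (act δ y w₂) := by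
  induction r using Nat.strong_induction_on with
  | _ r ihr =>
    intro w hr hwr hinv
    set F := E δ θ J with hF
    set ρ := Ker δ θ F w with hρ
    have hρF : ρ ≤ F := ker_le _ _ _
    have hEF : ∀ T, J ≤ T → E δ θ T ≤ F := fun T hT => E_mono hT
    have hsup : ∀ T, J ≤ T → ρ ⊔ E δ θ T ≤ F := fun T hT => sup_le hρF (hEF T hT)
    have hpos := N_pos F
    by_cases hdone : ρ = F
    · refine ⟨w, ?_, fun x y hxy => ?_⟩
      · rw [← hdone, hr]
        exact hwr
      · rw [← hdone] at hxy
        exact hxy.2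
    have hlt : N F < r := by
      rw [← hr]
      by_contra hcon
      exact hdone (eq_of_N_le hρF (by omega))
    -- the pair to be merged and its letter
    have step : ∃ T₀, J < T₀ ∧ T₀ ≤ k + 1 ∧ (∀ T, J ≤ T → T < T₀ → ρ ⊔ E δ θ T = F) ∧
        ∃ x y, F x y ∧ ¬ ρ x y ∧ (∀ T, T₀ ≤ T → T ≤ k → ¬ (ρ ⊔ E δ θ T) x y) ∧
          ∃ a, θ (act δ x (w ++ [a])) (act δ y (w ++ [a])) := by
      by_cases hex : ∃ T, J ≤ T ∧ T ≤ k ∧ ρ ⊔ E δ θ T ≠ F
      · classical
        obtain ⟨h1, h2, h3⟩ := Nat.find_spec hex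
        have hmin := fun T hT => Nat.find_min hex (m := T) hT
        set T₀ := Nat.find hex with hT₀
        have hJT : J < T₀ := by
          rcases Nat.eq_or_lt_of_le h1 with h4 | h4
          · exfalso
            apply h3
            rw [← h4]
            exact sup_eq_right.2 hρF
          · exact h4
        have hbelow : ∀ T, J ≤ T → T < T₀ → ρ ⊔ E δ θ T = F := by
          intro T hT1 hT2
          by_contra hcon
          exact hmin T hT2 ⟨hT1, by omega, hcon⟩
        have hlife : w.length ≤ T₀ - 1 := by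
          have h4 := hinv T₀ h1 h2
          have h5 := hN T₀ h1 h2
          have h6 : N F < N (ρ ⊔ E δ θ T₀) := by
            by_contra hcon
            exact h3 (eq_of_N_le (hsup T₀ h1) (by omega))
          omega
        have hpair : ∃ x y, C δ θ (T₀ - 1) x y ∧ ¬ (ρ ⊔ E δ θ T₀) x y := by
          by_contra hcon
          push Not at hcon
          have h4 : E δ θ (T₀ - 1) ≤ ρ ⊔ E δ θ T₀ := E_le hcon
          have h5 := hbelow (T₀ - 1) (by omega) (by omega)
          apply h3
          refine le_antisymm (hsup T₀ h1) ?_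
          rw [← h5]
          exact sup_le le_sup_left h4
        obtain ⟨x, y, hC, hxy⟩ := hpair
        refine ⟨T₀, hJT, by omega, hbelow, x, y, ?_, ?_, ?_, hC w hlife⟩
        · exact hEF (T₀ - 1) (by omega) (Relation.EqvGen.rel _ _ hC)
        · exact fun h => hxy (le_sup_left (a := ρ) h)
        · intro T hT1 hT2 h
          exact hxy (sup_le_sup_left (E_mono hT1) ρ h)
      · push Not at hex
        have hlife : w.length ≤ k := by omega
        have hpair : ∃ x y, C δ θ k x y ∧ ¬ ρ x y := by
          by_contra hcon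
          push Not at hcon
          have h4 : E δ θ k ≤ ρ := E_le hcon
          have h5 := hex k hJ le_rfl
          apply hdone
          rw [← h5]
          exact (sup_eq_left.2 h4).symm
        obtain ⟨x, y, hC, hxy⟩ := hpair
        exact ⟨k + 1, by omega, le_rfl, fun T hT1 hT2 => hex T hT1 (by omega), x, y,
          hEF k hJ (Relation.EqvGen.rel _ _ hC), hxy, fun T h1 h2 => by omega, hC w hlife⟩
    obtain ⟨T₀, hJT, hTk, hbelow, x, y, hFxy, hρxy, hxy, a, ha⟩ := step
    have hle : ρ ≤ Ker δ θ F (w ++ [a]) := ker_snoc hθ w a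
    have hnew : Ker δ θ F (w ++ [a]) x y := ⟨hFxy, ha⟩
    have hlt3 : N (Ker δ θ F (w ++ [a])) < r := by
      rw [← hr]
      exact N_lt hle hρxy hnew
    refine ihr _ hlt3 (w ++ [a]) rfl ?_ ?_
    · rw [List.length_append, List.length_singleton]
      omega
    · intro T hT1 hT2
      rw [List.length_append, List.length_singleton]
      rcases Nat.lt_or_ge T T₀ with h1 | h1
      · left
        have h2 := hbelow T hT1 h1
        have h3 : Ker δ θ F (w ++ [a]) ⊔ E δ θ T = F := by
          exact le_antisymm (sup_le (ker_le _ _ _) (hEF T hT1))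
            (h2.symm.le.trans (sup_le_sup_right hle _))
        rw [h3]
      · have h2 : N (Ker δ θ F (w ++ [a]) ⊔ E δ θ T) < N (ρ ⊔ E δ θ T) :=
          N_lt (sup_le_sup_right hle _) (hxy T h1 hT2) (le_sup_left (a := Ker δ θ F (w ++ [a])) hnew)
        rcases hinv T hT1 hT2 with h3 | h3
        · left; omega
        · right; omega

/-- the main induction -/
theorem main [Finite Q] [Nonempty Q] [Nonempty A] {k : ℕ} (hA : IsA δ k) (m : ℕ) :
    ∀ θ : Setoid Q, Cong δ θ → N θ = m → m ≤ k + 2 →
      ∃ w : List A, w.length + 1 ≤ m ∧ ∀ p q, θ (act δ p w) (act δ q w) := by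
  induction m using Nat.strong_induction_on with
  | _ m ih =>
    intro θ hθ hm hk
    by_cases hall : ∀ p q, θ p q
    · exact ⟨[], by have := N_pos θ; simp; omega, fun p q => hall p q⟩
    push Not at hall
    obtain ⟨p, q, hpq⟩ := hall
    obtain ⟨x, y, hxy, hC⟩ := game hA hpq
    have hlt : N (E δ θ k) < m := by
      rw [← hm]
      exact N_lt (le_E hθ k) hxy (Relation.EqvGen.rel _ _ hC)
    obtain ⟨J, hJ, hcong, hN⟩ := level hk hlt
    have hm' : N (E δ θ J) < m := by
      have := hN J le_rfl hJ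
      omega
    obtain ⟨w', hw1, hw2⟩ := ih _ hm' (E δ θ J) hcong rfl (by omega)
    have hnil : Ker δ θ (E δ θ J) [] = θ := ker_nil (le_E hθ J)
    obtain ⟨w₂, hw3, hw4⟩ := collapse hθ hk hJ hN m [] (by rw [hnil, hm]) (by simp) (by
      intro T h1 h2
      right
      rw [hnil, sup_eq_right.2 (le_E hθ T)]
      simp)
    refine ⟨w' ++ w₂, ?_, fun p q => ?_⟩
    · rw [List.length_append]
      omega
    · rw [act_append, act_append]
      exact hw4 _ _ (hw2 p q)

theorem exists_reset [Finite Q] [Nonempty Q] [Nonempty A] {k : ℕ} (hA : IsA δ k)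
    (hk : Nat.card Q ≤ k + 2) : ∃ w : List A, Reset δ w ∧ w.length + 1 ≤ Nat.card Q := by
  have hN : N (⊥ : Setoid Q) = Nat.card Q := by
    unfold N
    refine Nat.card_congr (Equiv.ofBijective (Quotient.mk (⊥ : Setoid Q)) ⟨?_, ?_⟩).symm
    · intro x y hxy
      exact Quotient.exact hxy
    · intro q
      induction q using Quotient.inductionOn with
      | h q => exact ⟨q, rfl⟩
  obtain ⟨w, hw1, hw2⟩ := main hA (Nat.card Q) ⊥ (fun a x y h => by
    have : x = y := h
    rw [this]) hN hk
  exact ⟨w, reset_iff.2 fun p q => hw2 p q, hw1⟩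

end Q222.AK
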